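import Mathlib
import Pool.Agent.Q133.MaxTol

set_option autoImplicit false

/-!
# A bounded tolerance graph that is not a max-tolerance graph
-/

namespace Pool.Agent.Results.MP_78c384_co.K33NotMaxTolerance

open Q133.MaxTol

/-- The complete bipartite graph `K_{3,3}` is a bounded tolerance graph and not a max-tolerance
graph. -/
theorem result : IsBoundedTolerance (completeBipartiteGraph (Fin 3) (Fin 3)) ∧
    ¬ IsMaxTolerance (completeBipartiteGraph (Fin 3) (Fin 3)) :=
  ⟨boundedTol, not_maxTol⟩

end Pool.Agent.Results.MP_78c384_co.K33NotMaxTolerance
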